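import Pool.Agent.Q78.BB.Stm
import Pool.Agent.Q190.BA.Ker

/-!
# Project BB (helper78), job K2: the moment `Em`
-/

set_option autoImplicit false

open MeasureTheory Set Filter Topology
open scoped BigOperators ENNReal

namespace Pool.Agent.Q190.BB

open Pool.Agent.Q78.BB Pool.Agent.Q276.BA
open Pool.Agent.Q190.BA (rat pp_continuous)

/-- the rational function of `rat` -/
noncomputable def HH (b N : ℕ) (x : ℝ) : ℝ :=
  (∏ s ∈ Finset.range N, (x - s)) / ∏ l ∈ Finset.range N, (x + b + l + 1)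

/-- a moment of the kernel -/
theorem mom4 (a b N k : ℕ) :
    4 * ∫ r in (0 : ℝ)..1, r ^ (4 * a + 2 + 4 * k) * pp b N (r ^ 4) =
      ∑ l ∈ Finset.range N, cc b N l / ((a : ℝ) + k + l + 3 / 4) := by
  have e : ∀ r : ℝ, r ^ (4 * a + 2 + 4 * k) * pp b N (r ^ 4) =
      ∑ l ∈ Finset.range N, cc b N l * r ^ (4 * a + 2 + 4 * k + 4 * l) := by
    intro r
    rw [pp, Finset.mul_sum]
    refine Finset.sum_congr rfl fun l _ => ?_
    rw [pow_add r (4 * a + 2 + 4 * k) (4 * l), pow_mul r 4 l]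
    ring
  rw [intervalIntegral.integral_congr
    (g := fun r => ∑ l ∈ Finset.range N, cc b N l * r ^ (4 * a + 2 + 4 * k + 4 * l))
    (fun r _ => e r), intervalIntegral.integral_finsetSum fun l _ =>
      (Continuous.intervalIntegrable (by fun_prop) _ _), Finset.mul_sum]
  refine Finset.sum_congr rfl fun l _ => ?_
  rw [intervalIntegral.integral_const_mul, integral_pow, one_pow, zero_pow (by omega), sub_zero]
  have h1 : (0 : ℝ) < (a : ℝ) + k + l + 3 / 4 := by positivity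
  have h2 : (((4 * a + 2 + 4 * k + 4 * l : ℕ) : ℝ) + 1) = 4 * ((a : ℝ) + k + l + 3 / 4) := by
    push_cast
    ring
  rw [h2]
  field_simp

/-- the moment as a sum -/
theorem em_eq (a N : ℕ) : Em (a + 1) N = ∑ j ∈ Finset.range N, cc (a + 1) N j *
    (HH (a + 1) N ((j : ℝ) - 5 / 4) - HH (a + 1) N ((j : ℝ) - 1 / 4)) := by
  have hp := pp_continuous (a + 1) N
  have e : ∀ r : ℝ, (1 - r ^ 4) * r ^ (4 * (a + 1) - 2) * (pp (a + 1) N (r ^ 4)) ^ 2 =
      ∑ j ∈ Finset.range N, cc (a + 1) N j * (r ^ (4 * a + 2 + 4 * j) * pp (a + 1) N (r ^ 4) -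
        r ^ (4 * a + 2 + 4 * (j + 1)) * pp (a + 1) N (r ^ 4)) := by
    intro r
    have h1 : 4 * (a + 1) - 2 = 4 * a + 2 := by omega
    have h2 : ∑ j ∈ Finset.range N, cc (a + 1) N j *
        (r ^ (4 * a + 2 + 4 * j) * pp (a + 1) N (r ^ 4) -
        r ^ (4 * a + 2 + 4 * (j + 1)) * pp (a + 1) N (r ^ 4)) =
        (1 - r ^ 4) * r ^ (4 * a + 2) * pp (a + 1) N (r ^ 4) *
          ∑ j ∈ Finset.range N, cc (a + 1) N j * (r ^ 4) ^ j := by
      rw [Finset.mul_sum]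
      refine Finset.sum_congr rfl fun j _ => ?_
      rw [pow_add r (4 * a + 2) (4 * j), pow_add r (4 * a + 2) (4 * (j + 1)), pow_mul r 4 j,
        pow_mul r 4 (j + 1), pow_succ (r ^ 4) j]
      ring
    rw [h1, h2]
    rw [show ∑ j ∈ Finset.range N, cc (a + 1) N j * (r ^ 4) ^ j = pp (a + 1) N (r ^ 4) from rfl]
    ring
  have hI : Em (a + 1) N = 4 * ∫ r in (0 : ℝ)..1, ∑ j ∈ Finset.range N, cc (a + 1) N j *
      (r ^ (4 * a + 2 + 4 * j) * pp (a + 1) N (r ^ 4) -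
        r ^ (4 * a + 2 + 4 * (j + 1)) * pp (a + 1) N (r ^ 4)) := by
    unfold Em
    rw [intervalIntegral.integral_congr (fun r _ => e r)]
  rw [hI, intervalIntegral.integral_finsetSum fun l _ =>
      (Continuous.intervalIntegrable (by fun_prop) _ _), Finset.mul_sum]
  refine Finset.sum_congr rfl fun j _ => ?_
  have hi1 : IntervalIntegrable (fun r : ℝ => r ^ (4 * a + 2 + 4 * j) * pp (a + 1) N (r ^ 4))
      volume 0 1 := Continuous.intervalIntegrable (by fun_prop) _ _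
  have hi2 : IntervalIntegrable (fun r : ℝ => r ^ (4 * a + 2 + 4 * (j + 1)) * pp (a + 1) N (r ^ 4))
      volume 0 1 := Continuous.intervalIntegrable (by fun_prop) _ _
  rw [intervalIntegral.integral_const_mul, intervalIntegral.integral_sub hi1 hi2]
  have h1 := mom4 a (a + 1) N j
  have h2 := mom4 a (a + 1) N (j + 1)
  have r1 := rat (a + 1) N ((j : ℝ) - 5 / 4) (fun l _ => by
    have : (0 : ℝ) < (j : ℝ) - 5 / 4 + ((a + 1 : ℕ) : ℝ) + l + 1 := by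
      push_cast
      have h3 : (0 : ℝ) ≤ (j : ℝ) := Nat.cast_nonneg j
      have h4 : (0 : ℝ) ≤ (a : ℝ) := Nat.cast_nonneg a
      have h5 : (0 : ℝ) ≤ (l : ℝ) := Nat.cast_nonneg l
      linarith
    exact this.ne')
  have r2 := rat (a + 1) N ((j : ℝ) - 1 / 4) (fun l _ => by
    have : (0 : ℝ) < (j : ℝ) - 1 / 4 + ((a + 1 : ℕ) : ℝ) + l + 1 := by
      push_cast
      have h3 : (0 : ℝ) ≤ (j : ℝ) := Nat.cast_nonneg j
      have h4 : (0 : ℝ) ≤ (a : ℝ) := Nat.cast_nonneg a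
      have h5 : (0 : ℝ) ≤ (l : ℝ) := Nat.cast_nonneg l
      linarith
    exact this.ne')
  have e1 : ∑ l ∈ Finset.range N, cc (a + 1) N l / ((a : ℝ) + j + l + 3 / 4) =
      ∑ l ∈ Finset.range N, cc (a + 1) N l / ((j : ℝ) - 5 / 4 + ((a + 1 : ℕ) : ℝ) + l + 1) := by
    refine Finset.sum_congr rfl fun l _ => ?_
    congr 1
    push_cast
    ring
  have e2 : ∑ l ∈ Finset.range N, cc (a + 1) N l / ((a : ℝ) + ((j + 1 : ℕ) : ℝ) + l + 3 / 4) =
      ∑ l ∈ Finset.range N, cc (a + 1) N l / ((j : ℝ) - 1 / 4 + ((a + 1 : ℕ) : ℝ) + l + 1) := by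
    refine Finset.sum_congr rfl fun l _ => ?_
    congr 1
    push_cast
    ring
  rw [e1] at h1
  rw [e2] at h2
  unfold HH
  rw [← r1, ← r2]
  linear_combination cc (a + 1) N j * (h1 - h2)

/-- the sign of a shifted factorial: `∏_{s<N} (j - c - s)` with `0 < c < 1` -/
theorem sgn {c : ℝ} (hc0 : 0 < c) (hc1 : c < 1) : ∀ (N j : ℕ), j ≤ N →
    0 ≤ (-1 : ℝ) ^ (N + j) * ∏ s ∈ Finset.range N, ((j : ℝ) - c - s) := by
  intro N j hj
  induction N, hj using Nat.le_induction with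
  | base =>
    rw [← two_mul, pow_mul]
    norm_num
    apply Finset.prod_nonneg
    intro s hs
    have h1 : s + 1 ≤ j := Finset.mem_range.1 hs
    have h2 : (s : ℝ) + 1 ≤ j := by exact_mod_cast h1
    linarith
  | succ N hN ih =>
    rw [Finset.prod_range_succ]
    have h2 : (j : ℝ) ≤ N := by exact_mod_cast hN
    have h3 : 0 ≤ -((j : ℝ) - c - N) := by linarith
    have h4 := mul_nonneg ih h3
    have h5 : (-1 : ℝ) ^ (N + 1 + j) * ((∏ s ∈ Finset.range N, ((j : ℝ) - c - s)) * ((j : ℝ) - c - N)) =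
        (-1 : ℝ) ^ (N + j) * (∏ s ∈ Finset.range N, ((j : ℝ) - c - s)) * -((j : ℝ) - c - N) := by
      rw [show N + 1 + j = N + j + 1 by ring, pow_succ]
      ring
    rw [h5]
    exact h4

theorem den_pos {b N : ℕ} {x : ℝ} (hx : 0 < x + b + 1) :
    0 < ∏ l ∈ Finset.range N, (x + b + l + 1) := by
  apply Finset.prod_pos
  intro l _
  have h5 : (0 : ℝ) ≤ (l : ℝ) := Nat.cast_nonneg l
  linarith

theorem cc_abs (b N l : ℕ) : ∃ u : ℝ, 0 ≤ u ∧ cc b N l = (-1) ^ (N + l) * u := by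
  refine ⟨(N : ℝ) * ((N - 1).choose l : ℝ) * ((N + b + l).choose N : ℝ), by positivity, ?_⟩
  unfold cc
  ring

/-- the term at `j - 1/4` -/
theorem term_pos (b N j : ℕ) (hj : j ≤ N) : 0 ≤ cc b N j * HH b N ((j : ℝ) - 1 / 4) := by
  obtain ⟨u, hu, hc⟩ := cc_abs b N j
  have h1 := sgn (c := 1 / 4) (by norm_num) (by norm_num) N j hj
  have h2 : 0 < ∏ l ∈ Finset.range N, ((j : ℝ) - 1 / 4 + b + l + 1) := by
    apply den_pos
    have h3 : (0 : ℝ) ≤ (j : ℝ) := Nat.cast_nonneg j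
    have h4 : (0 : ℝ) ≤ (b : ℝ) := Nat.cast_nonneg b
    linarith
  unfold HH
  rw [hc, show (-1 : ℝ) ^ (N + j) * u * ((∏ s ∈ Finset.range N, ((j : ℝ) - 1 / 4 - s)) /
    ∏ l ∈ Finset.range N, ((j : ℝ) - 1 / 4 + b + l + 1)) =
    u * ((-1 : ℝ) ^ (N + j) * ∏ s ∈ Finset.range N, ((j : ℝ) - 1 / 4 - s)) /
      ∏ l ∈ Finset.range N, ((j : ℝ) - 1 / 4 + b + l + 1) by ring]
  positivity

/-- the term at `j - 5/4`, `j ≥ 1` -/
theorem term_neg (a N i : ℕ) (hi : i ≤ N) :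
    cc (a + 1) N (i + 1) * HH (a + 1) N (((i + 1 : ℕ) : ℝ) - 5 / 4) ≤ 0 := by
  obtain ⟨u, hu, hc⟩ := cc_abs (a + 1) N (i + 1)
  have h1 := sgn (c := 1 / 4) (by norm_num) (by norm_num) N i hi
  have h2 : 0 < ∏ l ∈ Finset.range N, ((i : ℝ) - 1 / 4 + ((a + 1 : ℕ) : ℝ) + l + 1) := by
    apply den_pos
    have h3 : (0 : ℝ) ≤ (i : ℝ) := Nat.cast_nonneg i
    have h4 : (0 : ℝ) ≤ ((a + 1 : ℕ) : ℝ) := Nat.cast_nonneg _
    linarith
  have h0 : (((i + 1 : ℕ) : ℝ) - 5 / 4) = (i : ℝ) - 1 / 4 := by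
    push_cast
    ring
  unfold HH
  rw [h0, hc, show (-1 : ℝ) ^ (N + (i + 1)) * u * ((∏ s ∈ Finset.range N, ((i : ℝ) - 1 / 4 - s)) /
    ∏ l ∈ Finset.range N, ((i : ℝ) - 1 / 4 + ((a + 1 : ℕ) : ℝ) + l + 1)) =
    -(u * ((-1 : ℝ) ^ (N + i) * ∏ s ∈ Finset.range N, ((i : ℝ) - 1 / 4 - s)) /
      ∏ l ∈ Finset.range N, ((i : ℝ) - 1 / 4 + ((a + 1 : ℕ) : ℝ) + l + 1)) by
        rw [show N + (i + 1) = N + i + 1 by ring, pow_succ]
        ring]
  rw [neg_nonpos]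
  positivity

/-- the first term -/
theorem first (a N : ℕ) : cc (a + 1) N 0 * HH (a + 1) N (((0 : ℕ) : ℝ) - 5 / 4) =
    N * ∏ i ∈ Finset.range N, ((((a : ℝ) + 2 + i) / (1 + i)) * (((i : ℝ) + 5 / 4) / (a + i + 3 / 4))) := by
  have h1 : ∏ s ∈ Finset.range N, ((((0 : ℕ) : ℝ) - 5 / 4) - s) =
      (-1) ^ N * ∏ s ∈ Finset.range N, ((s : ℝ) + 5 / 4) := by
    rw [show (-1 : ℝ) ^ N = ∏ _s ∈ Finset.range N, (-1 : ℝ) by
      rw [Finset.prod_const, Finset.card_range], ← Finset.prod_mul_distrib]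
    refine Finset.prod_congr rfl fun s _ => ?_
    push_cast
    ring
  have h2 : ∏ l ∈ Finset.range N, ((((0 : ℕ) : ℝ) - 5 / 4) + ((a + 1 : ℕ) : ℝ) + l + 1) =
      ∏ l ∈ Finset.range N, ((a : ℝ) + l + 3 / 4) := by
    refine Finset.prod_congr rfl fun s _ => ?_
    push_cast
    ring
  have h3 : (((N + (a + 1) + 0).choose N : ℕ) : ℝ) * (N.factorial : ℝ) =
      ∏ i ∈ Finset.range N, ((a : ℝ) + 2 + i) := by
    have h := Nat.ascFactorial_eq_factorial_mul_choose (a + 1) N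
    rw [Nat.ascFactorial_eq_prod_range] at h
    have h' := congrArg (fun z : ℕ => (z : ℝ)) h
    push_cast at h'
    have h8 : ∏ i ∈ Finset.range N, ((a : ℝ) + 2 + i) = ∏ i ∈ Finset.range N, ((a : ℝ) + 1 + 1 + i) :=
      Finset.prod_congr rfl fun i _ => by ring
    rw [h8, h', show N + (a + 1) + 0 = a + 1 + N by omega]
    ring
  have h4 : (N.factorial : ℝ) = ∏ i ∈ Finset.range N, ((1 : ℝ) + i) := by
    rw [← Finset.prod_range_add_one_eq_factorial, Nat.cast_prod]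
    refine Finset.prod_congr rfl fun i _ => ?_
    push_cast
    ring
  have h5 : ∏ i ∈ Finset.range N, ((1 : ℝ) + i) ≠ 0 := by
    rw [← h4]
    exact_mod_cast Nat.factorial_ne_zero N
  have h6 : ((-1 : ℝ) ^ N) * (-1) ^ N = 1 := by rw [← mul_pow]; norm_num
  rw [Finset.prod_mul_distrib, Finset.prod_div_distrib, Finset.prod_div_distrib, ← h3, ← h4]
  unfold HH cc
  rw [h1, h2]
  have h7 : (N.factorial : ℝ) ≠ 0 := by exact_mod_cast Nat.factorial_ne_zero N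
  rw [mul_div_assoc (((N + (a + 1) + 0).choose N : ℕ) : ℝ), div_self h7, mul_one, Nat.add_zero,
    Nat.choose_zero_right, Nat.cast_one, mul_one, Nat.add_zero]
  rw [show (-1 : ℝ) ^ N * (N : ℝ) * ((N + (a + 1)).choose N : ℝ) *
    ((-1) ^ N * (∏ s ∈ Finset.range N, ((s : ℝ) + 5 / 4)) / ∏ l ∈ Finset.range N, ((a : ℝ) + l + 3 / 4)) =
    ((-1 : ℝ) ^ N * (-1) ^ N) * ((N : ℝ) * ((N + (a + 1)).choose N : ℝ) *
    ((∏ s ∈ Finset.range N, ((s : ℝ) + 5 / 4)) / ∏ l ∈ Finset.range N, ((a : ℝ) + l + 3 / 4))) by ring,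
    h6, one_mul]
  ring

/-- the product is at most a square root -/
theorem prod_le (a : ℕ) : ∀ N : ℕ,
    0 ≤ ∏ i ∈ Finset.range N, ((((a : ℝ) + 2 + i) / (1 + i)) * (((i : ℝ) + 5 / 4) / (a + i + 3 / 4))) ∧
    (∏ i ∈ Finset.range N, ((((a : ℝ) + 2 + i) / (1 + i)) * (((i : ℝ) + 5 / 4) / (a + i + 3 / 4)))) ^ 2 ≤
      ((N : ℝ) + 1) ^ 2 * (2 * N + 1) := by
  intro N
  induction N with
  | zero => simp
  | succ N ih =>
    obtain ⟨h0, h1⟩ := ih
    rw [Finset.prod_range_succ]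
    have ha : (0 : ℝ) ≤ (a : ℝ) := Nat.cast_nonneg a
    have hN : (0 : ℝ) ≤ (N : ℝ) := Nat.cast_nonneg N
    have hf0 : 0 ≤ (((a : ℝ) + 2 + N) / (1 + N)) * (((N : ℝ) + 5 / 4) / (a + N + 3 / 4)) := by positivity
    refine ⟨mul_nonneg h0 hf0, ?_⟩
    have hf1 : (((a : ℝ) + 2 + N) / (1 + N)) * (((N : ℝ) + 5 / 4) / (a + N + 3 / 4)) ≤
        ((N : ℝ) + 2) / (N + 1) * (((N : ℝ) + 5 / 4) / (N + 3 / 4)) := by
      rw [div_mul_div_comm, div_mul_div_comm, div_le_div_iff₀ (by positivity) (by positivity)]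
      have : 0 ≤ (a : ℝ) * ((N : ℝ) + 5 / 4) * (N + 1) * (5 / 4) := by positivity
      nlinarith
    have hf2 : ((((N : ℝ) + 5 / 4) / (N + 3 / 4))) ^ 2 ≤ (2 * N + 3) / (2 * N + 1) := by
      rw [div_pow, div_le_div_iff₀ (by positivity) (by positivity)]
      nlinarith
    rw [mul_pow]
    calc _ ≤ ((N : ℝ) + 1) ^ 2 * (2 * N + 1) *
          (((N : ℝ) + 2) / (N + 1) * (((N : ℝ) + 5 / 4) / (N + 3 / 4))) ^ 2 := by
          gcongr
      _ = ((N : ℝ) + 2) ^ 2 * (2 * N + 1) * ((((N : ℝ) + 5 / 4) / (N + 3 / 4))) ^ 2 := by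
          field_simp
      _ ≤ ((N : ℝ) + 2) ^ 2 * (2 * N + 1) * ((2 * N + 3) / (2 * N + 1)) := by gcongr
      _ = _ := by
          push_cast
          field_simp
          ring

/-- **K2** -/
theorem k2 : S_K2 := by
  intro b N hb hN
  obtain ⟨a, rfl⟩ : ∃ a, b = a + 1 := ⟨b - 1, by omega⟩
  obtain ⟨n, rfl⟩ : ∃ n, N = n + 1 := ⟨N - 1, by omega⟩
  rw [em_eq]
  have h1 : ∑ j ∈ Finset.range (n + 1), cc (a + 1) (n + 1) j *
      (HH (a + 1) (n + 1) ((j : ℝ) - 5 / 4) - HH (a + 1) (n + 1) ((j : ℝ) - 1 / 4)) ≤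
      ∑ j ∈ Finset.range (n + 1), cc (a + 1) (n + 1) j * HH (a + 1) (n + 1) ((j : ℝ) - 5 / 4) := by
    apply Finset.sum_le_sum
    intro j hj
    have h2 := term_pos (a + 1) (n + 1) j (Finset.mem_range.1 hj).le
    linarith
  have h2 : ∑ j ∈ Finset.range (n + 1), cc (a + 1) (n + 1) j * HH (a + 1) (n + 1) ((j : ℝ) - 5 / 4) ≤
      cc (a + 1) (n + 1) 0 * HH (a + 1) (n + 1) (((0 : ℕ) : ℝ) - 5 / 4) := by
    rw [Finset.sum_range_succ']
    have h3 : ∑ i ∈ Finset.range n, cc (a + 1) (n + 1) (i + 1) *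
        HH (a + 1) (n + 1) (((i + 1 : ℕ) : ℝ) - 5 / 4) ≤ 0 := by
      apply Finset.sum_nonpos
      intro i hi
      exact term_neg a (n + 1) i (by have := Finset.mem_range.1 hi; omega)
    linarith
  refine h1.trans (h2.trans ?_)
  rw [first]
  obtain ⟨h3, h4⟩ := prod_le a (n + 1)
  rw [mul_assoc]
  apply mul_le_mul_of_nonneg_left _ (Nat.cast_nonneg _)
  have h5 : (0 : ℝ) ≤ 2 * ((n + 1 : ℕ) : ℝ) + 1 := by positivity
  apply abs_le_of_sq_le_sq' _ (by positivity) |>.2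
  rw [mul_pow, Real.sq_sqrt h5]
  exact h4

end Pool.Agent.Q190.BB
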