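import Pool.Agent.Q78.BB.Stm

/-!
# Project BB (helper78), job K3: the sum `SS N`
-/

set_option autoImplicit false

open MeasureTheory Set Filter Topology
open scoped BigOperators ENNReal

namespace Pool.Agent.Q190.BB.K3

open Pool.Agent.Q78.BB

theorem dd_succ (m : ℕ) (hm : 1 ≤ m) : dd (m + 1) = dd m * (1 + 3 / (4 * (m : ℝ))) := by
  obtain ⟨k, rfl⟩ : ∃ k, m = k + 1 := ⟨m - 1, by omega⟩
  unfold dd
  rw [Finset.prod_range_succ, Nat.add_sub_cancel, Nat.add_sub_cancel, Nat.factorial_succ]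
  have h1 : (k.factorial : ℝ) ≠ 0 := by exact_mod_cast Nat.factorial_ne_zero k
  generalize (∏ i ∈ Finset.range (k + 1), ((i : ℝ) + 3 / 4)) = P
  push_cast
  field_simp

theorem dd_pos (m : ℕ) : 0 < dd m := by
  unfold dd
  have h1 : (0 : ℝ) < ((m - 1).factorial : ℝ) := by exact_mod_cast Nat.factorial_pos _
  have h2 : 0 < ∏ i ∈ Finset.range m, ((i : ℝ) + 3 / 4) := Finset.prod_pos fun i _ => by positivity
  positivity

/-- the basic inequality -/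
theorem basic {x : ℝ} (hx : 3 / 4 ≤ x) :
    (1 + 3 / (4 * x)) ^ 4 * (x - 1 / 8) ^ 3 ≤ (x + 7 / 8) ^ 3 := by
  have hx0 : 0 < x := by linarith
  have h1 : 1 + 3 / (4 * x) = (4 * x + 3) / (4 * x) := by
    field_simp
  rw [h1, div_pow, div_mul_eq_mul_div, div_le_iff₀ (by positivity)]
  obtain ⟨y, rfl⟩ : ∃ y, x = y + 3 / 4 := ⟨x - 3 / 4, by ring⟩
  have hy : 0 ≤ y := by linarith
  ring_nf
  nlinarith [pow_nonneg hy 2, pow_nonneg hy 3, pow_nonneg hy 4, pow_nonneg hy 5, pow_nonneg hy 6]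

theorem dd_le : ∀ m : ℕ, 1 ≤ m → (dd m) ^ 4 ≤ 162 / 343 * ((m : ℝ) - 1 / 8) ^ 3 := by
  intro m hm
  induction m, hm using Nat.le_induction with
  | base =>
    unfold dd
    norm_num
  | succ m hm ih =>
    rw [dd_succ m hm, mul_pow]
    have hm1 : (1 : ℝ) ≤ m := by exact_mod_cast hm
    have h1 := basic (x := (m : ℝ)) (by linarith)
    have h2 : 0 ≤ (1 + 3 / (4 * (m : ℝ))) ^ 4 := by positivity
    calc dd m ^ 4 * (1 + 3 / (4 * (m : ℝ))) ^ 4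
        ≤ 162 / 343 * ((m : ℝ) - 1 / 8) ^ 3 * (1 + 3 / (4 * (m : ℝ))) ^ 4 :=
          mul_le_mul_of_nonneg_right ih h2
      _ = 162 / 343 * ((1 + 3 / (4 * (m : ℝ))) ^ 4 * ((m : ℝ) - 1 / 8) ^ 3) := by ring
      _ ≤ 162 / 343 * ((m : ℝ) + 7 / 8) ^ 3 := by gcongr
      _ = _ := by
        push_cast
        ring

theorem rr_pos (N j : ℕ) : 0 < rr N j := by
  unfold rr
  exact Finset.prod_pos fun i _ => by positivity

theorem rr_le (j : ℕ) : ∀ N : ℕ, (rr N j) ^ 4 * ((j : ℝ) + 9 / 8) ^ 3 ≤ ((N : ℝ) + j + 9 / 8) ^ 3 := by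
  intro N
  induction N with
  | zero =>
    unfold rr
    simp
  | succ N ih =>
    have h0 : rr (N + 1) j = rr N j * (((j : ℝ) + 2 + N) / ((j : ℝ) + 5 / 4 + N)) := by
      unfold rr
      rw [Finset.prod_range_succ]
    have hj : (0 : ℝ) ≤ (j : ℝ) := Nat.cast_nonneg j
    have hN : (0 : ℝ) ≤ (N : ℝ) := Nat.cast_nonneg N
    have h1 := basic (x := (j : ℝ) + 5 / 4 + N) (by linarith)
    have h2 : ((j : ℝ) + 2 + N) / ((j : ℝ) + 5 / 4 + N) = 1 + 3 / (4 * ((j : ℝ) + 5 / 4 + N)) := by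
      field_simp
      ring
    rw [h0, h2, mul_pow]
    set F := (1 + 3 / (4 * ((j : ℝ) + 5 / 4 + N))) ^ 4 with hF
    have hF0 : 0 ≤ F := by positivity
    calc rr N j ^ 4 * F * ((j : ℝ) + 9 / 8) ^ 3 = (rr N j ^ 4 * ((j : ℝ) + 9 / 8) ^ 3) * F := by ring
      _ ≤ ((N : ℝ) + j + 9 / 8) ^ 3 * F := mul_le_mul_of_nonneg_right ih hF0
      _ = F * ((j : ℝ) + 5 / 4 + N - 1 / 8) ^ 3 := by ring
      _ ≤ ((j : ℝ) + 5 / 4 + N + 7 / 8) ^ 3 := h1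
      _ = _ := by
        push_cast
        ring

theorem aa_pos (j : ℕ) : 0 < aa j := by
  unfold aa
  exact Finset.prod_pos fun i _ => by positivity

theorem aa_le : ∀ j : ℕ, 1 ≤ j → (aa j) ^ 4 * ((j : ℝ) + 1 / 4) ^ 3 ≤ 125 / 16384 := by
  intro j hj
  induction j, hj using Nat.le_induction with
  | base =>
    unfold aa
    norm_num
  | succ j hj ih =>
    have h0 : aa (j + 1) = aa j * (((j : ℝ) + 1 / 4) / ((j : ℝ) + 1)) := by
      unfold aa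
      rw [Finset.prod_range_succ]
    have hj0 : (1 : ℝ) ≤ (j : ℝ) := by exact_mod_cast hj
    set x := (j : ℝ) + 1 / 4 with hx
    have hx0 : 0 < x := by positivity
    have h1 : (((j : ℝ) + 1 / 4) / ((j : ℝ) + 1)) = x / (x + 3 / 4) := by
      rw [hx]
      congr 1
      ring
    have h2 : (x / (x + 3 / 4)) ^ 4 * (x + 1) ^ 3 ≤ x ^ 3 := by
      rw [div_pow, div_mul_eq_mul_div, div_le_iff₀ (by positivity)]
      have h3 : x * (x + 1) ^ 3 ≤ (x + 3 / 4) ^ 4 := by nlinarith [pow_pos hx0 2]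
      calc x ^ 4 * (x + 1) ^ 3 = x ^ 3 * (x * (x + 1) ^ 3) := by ring
        _ ≤ x ^ 3 * (x + 3 / 4) ^ 4 := by gcongr
    have h4 : (((j + 1 : ℕ) : ℝ) + 1 / 4) = x + 1 := by
      rw [hx]
      push_cast
      ring
    rw [h0, h1, h4, mul_pow]
    calc aa j ^ 4 * (x / (x + 3 / 4)) ^ 4 * (x + 1) ^ 3 =
        aa j ^ 4 * ((x / (x + 3 / 4)) ^ 4 * (x + 1) ^ 3) := by ring
      _ ≤ aa j ^ 4 * x ^ 3 := by gcongr
      _ ≤ _ := ih

theorem four_le {A B : ℝ} (_hA : 0 ≤ A) (hB : 0 ≤ B) (h : A ^ 4 ≤ B ^ 4) : A ≤ B :=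
  le_of_pow_le_pow_left₀ (by norm_num) hB h

/-- the terms with `j ≥ 1` -/
theorem term_le {N j : ℕ} (hj : 1 ≤ j) (hjN : j < N) {Y : ℝ} (hY : 0 ≤ Y)
    (hY4 : Y ^ 4 = ((N : ℝ) ^ 2 + N) ^ 3) :
    aa j * dd (N - j) * rr N j ≤
      0.246 * Y * (2 * (1 / Real.sqrt ((j : ℝ) + 1 / 10) - 1 / Real.sqrt ((j : ℝ) + 11 / 10))) := by
  have hj1 : (1 : ℝ) ≤ j := by exact_mod_cast hj
  have hjN1 : (j : ℝ) + 1 ≤ N := by exact_mod_cast hjN
  set p := Real.sqrt ((j : ℝ) + 1 / 10) with hp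
  set q := Real.sqrt ((j : ℝ) + 11 / 10) with hq
  set w := Real.sqrt ((j : ℝ) + 6 / 10) with hw
  have hp0 : 0 < p := Real.sqrt_pos.2 (by linarith)
  have hq0 : 0 < q := Real.sqrt_pos.2 (by linarith)
  have hw0 : 0 < w := Real.sqrt_pos.2 (by linarith)
  have hp2 : p ^ 2 = (j : ℝ) + 1 / 10 := Real.sq_sqrt (by linarith)
  have hq2 : q ^ 2 = (j : ℝ) + 11 / 10 := Real.sq_sqrt (by linarith)
  have hw2 : w ^ 2 = (j : ℝ) + 6 / 10 := Real.sq_sqrt (by linarith)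
  -- the difference of the square roots
  have h1 : 1 / w ^ 3 ≤ 2 * (1 / p - 1 / q) := by
    have h2 : p * q ≤ w ^ 2 := by
      apply abs_le_of_sq_le_sq' _ (by positivity) |>.2
      rw [mul_pow, hp2, hq2, hw2]
      nlinarith
    have h3 : p + q ≤ 2 * w := by
      apply abs_le_of_sq_le_sq' _ (by positivity) |>.2
      nlinarith [sq_nonneg (p - q)]
    have h4 : p * q * (p + q) ≤ 2 * w ^ 3 := by
      calc p * q * (p + q) ≤ w ^ 2 * (2 * w) := by gcongr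
        _ = 2 * w ^ 3 := by ring
    have h5 : 2 * (1 / p - 1 / q) = 2 / (p * q * (p + q)) := by
      have h6 : (q - p) * (p + q) = 1 := by
        nlinarith
      field_simp
      linarith
    rw [h5, div_le_div_iff₀ (by positivity) (by positivity)]
    linarith
  have h7 : aa j * dd (N - j) * rr N j ≤ 0.246 * Y * (1 / w ^ 3) := by
    have ha := aa_pos j
    have hd := dd_pos (N - j)
    have hr := rr_pos N j
    apply four_le (by positivity) (by positivity)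
    have a1 := aa_le j hj
    have d1 := dd_le (N - j) (by omega)
    have r1 := rr_le j N
    rw [Nat.cast_sub hjN.le] at d1
    have hX : 0 < (j : ℝ) + 1 / 4 := by linarith
    have hZ : 0 < (j : ℝ) + 9 / 8 := by linarith
    have e1 : (aa j * dd (N - j) * rr N j) ^ 4 * (((j : ℝ) + 1 / 4) * ((j : ℝ) + 9 / 8)) ^ 3 ≤
        125 / 16384 * (162 / 343 * ((N : ℝ) - j - 1 / 8) ^ 3) * ((N : ℝ) + j + 9 / 8) ^ 3 := by
      calc _ = (aa j ^ 4 * ((j : ℝ) + 1 / 4) ^ 3) * dd (N - j) ^ 4 *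
            (rr N j ^ 4 * ((j : ℝ) + 9 / 8) ^ 3) := by ring
        _ ≤ _ := by
          have hNj : 0 ≤ (N : ℝ) - j - 1 / 8 := by linarith
          gcongr
    have e2 : ((N : ℝ) - j - 1 / 8) * ((N : ℝ) + j + 9 / 8) ≤ (N : ℝ) ^ 2 + N := by nlinarith
    have e3 : (((N : ℝ) - j - 1 / 8) * ((N : ℝ) + j + 9 / 8)) ^ 3 ≤ ((N : ℝ) ^ 2 + N) ^ 3 := by
      apply pow_le_pow_left₀ _ e2
      apply mul_nonneg <;> linarith
    have e4 : (w ^ 3) ^ 4 = (((j : ℝ) + 6 / 10) ^ 2) ^ 3 := by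
      rw [← hw2]
      ring
    have e5 : (((j : ℝ) + 6 / 10) ^ 2) ^ 3 ≤ (((j : ℝ) + 1 / 4) * ((j : ℝ) + 9 / 8)) ^ 3 := by
      apply pow_le_pow_left₀ (by positivity)
      nlinarith
    have e6 : (0.246 * Y * (1 / w ^ 3)) ^ 4 = 0.246 ^ 4 * Y ^ 4 / (w ^ 3) ^ 4 := by
      rw [mul_pow, mul_pow, div_pow, one_pow]
      ring
    rw [e6, hY4, e4, le_div_iff₀ (by positivity)]
    calc (aa j * dd (N - j) * rr N j) ^ 4 * (((j : ℝ) + 6 / 10) ^ 2) ^ 3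
        ≤ (aa j * dd (N - j) * rr N j) ^ 4 * (((j : ℝ) + 1 / 4) * ((j : ℝ) + 9 / 8)) ^ 3 := by gcongr
      _ ≤ 125 / 16384 * (162 / 343 * ((N : ℝ) - j - 1 / 8) ^ 3) * ((N : ℝ) + j + 9 / 8) ^ 3 := e1
      _ = 125 / 16384 * (162 / 343) * (((N : ℝ) - j - 1 / 8) * ((N : ℝ) + j + 9 / 8)) ^ 3 := by ring
      _ ≤ 125 / 16384 * (162 / 343) * ((N : ℝ) ^ 2 + N) ^ 3 := by gcongr
      _ ≤ 0.246 ^ 4 * ((N : ℝ) ^ 2 + N) ^ 3 := by
        apply mul_le_mul_of_nonneg_right _ (by positivity)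
        norm_num
  calc _ ≤ 0.246 * Y * (1 / w ^ 3) := h7
    _ ≤ _ := mul_le_mul_of_nonneg_left h1 (by positivity)

/-- the term `j = 0` -/
theorem term0 {N : ℕ} (hN : 1 ≤ N) {Y : ℝ} (hY : 0 ≤ Y) (hY4 : Y ^ 4 = ((N : ℝ) ^ 2 + N) ^ 3) :
    aa 0 * dd (N - 0) * rr N 0 ≤ 0.76 * Y := by
  have hN1 : (1 : ℝ) ≤ N := by exact_mod_cast hN
  have ha : aa 0 = 1 := by
    unfold aa
    simp
  rw [ha, one_mul, Nat.sub_zero]
  have hd := dd_pos N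
  have hr := rr_pos N 0
  apply four_le (by positivity) (by positivity)
  have d1 := dd_le N hN
  have r1 := rr_le 0 N
  rw [Nat.cast_zero, zero_add, add_zero] at r1
  have r2 : rr N 0 ^ 4 ≤ ((N : ℝ) + 9 / 8) ^ 3 / (9 / 8) ^ 3 := by
    rw [le_div_iff₀ (by norm_num)]
    exact r1
  have e2 : ((N : ℝ) - 1 / 8) * ((N : ℝ) + 9 / 8) ≤ (N : ℝ) ^ 2 + N := by nlinarith
  have e3 : (((N : ℝ) - 1 / 8) * ((N : ℝ) + 9 / 8)) ^ 3 ≤ ((N : ℝ) ^ 2 + N) ^ 3 := by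
    apply pow_le_pow_left₀ _ e2
    apply mul_nonneg <;> linarith
  rw [mul_pow, mul_pow, hY4]
  have hNj : 0 ≤ (N : ℝ) - 1 / 8 := by linarith
  calc dd N ^ 4 * rr N 0 ^ 4 ≤ (162 / 343 * ((N : ℝ) - 1 / 8) ^ 3) *
        (((N : ℝ) + 9 / 8) ^ 3 / (9 / 8) ^ 3) := by gcongr
    _ = 162 / 343 / (9 / 8) ^ 3 * (((N : ℝ) - 1 / 8) * ((N : ℝ) + 9 / 8)) ^ 3 := by ring
    _ ≤ 162 / 343 / (9 / 8) ^ 3 * ((N : ℝ) ^ 2 + N) ^ 3 := by gcongr
    _ ≤ 0.76 ^ 4 * ((N : ℝ) ^ 2 + N) ^ 3 := by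
        apply mul_le_mul_of_nonneg_right _ (by positivity)
        norm_num

/-- the telescoping sum -/
theorem tele : ∀ n : ℕ, ∑ j ∈ Finset.range n,
    (2 * (1 / Real.sqrt (((j + 1 : ℕ) : ℝ) + 1 / 10) - 1 / Real.sqrt (((j + 1 : ℕ) : ℝ) + 11 / 10))) =
    2 * (1 / Real.sqrt (1 + 1 / 10) - 1 / Real.sqrt ((n : ℝ) + 1 + 1 / 10)) := by
  intro n
  induction n with
  | zero => simp
  | succ n ih =>
    rw [Finset.sum_range_succ, ih]
    have h1 : (((n + 1 : ℕ) : ℝ) + 1 / 10) = (n : ℝ) + 1 + 1 / 10 := by push_cast; ring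
    have h2 : (((n + 1 : ℕ) : ℝ) + 11 / 10) = ((n + 1 : ℕ) : ℝ) + 1 + 1 / 10 := by push_cast; ring
    rw [h1, h2]
    ring

/-- **K3** -/
theorem k3 : S_K3 := by
  intro N hN
  obtain ⟨n, rfl⟩ : ∃ n, N = n + 1 := ⟨N - 1, by omega⟩
  have hA : (0 : ℝ) ≤ ((n + 1 : ℕ) : ℝ) ^ 2 + ((n + 1 : ℕ) : ℝ) := by positivity
  set Y : ℝ := (((n + 1 : ℕ) : ℝ) ^ 2 + ((n + 1 : ℕ) : ℝ)) ^ (3 / 4 : ℝ) with hYdef
  have hY : 0 ≤ Y := Real.rpow_nonneg hA _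
  have hY4 : Y ^ 4 = (((n + 1 : ℕ) : ℝ) ^ 2 + ((n + 1 : ℕ) : ℝ)) ^ 3 := by
    rw [hYdef, ← Real.rpow_natCast, ← Real.rpow_mul hA, ← Real.rpow_natCast _ 3]
    congr 1
    norm_num
  unfold SS
  rw [Finset.sum_range_succ']
  have h0 := term0 (N := n + 1) (by omega) hY hY4
  have h1 : ∑ j ∈ Finset.range n, aa (j + 1) * dd (n + 1 - (j + 1)) * rr (n + 1) (j + 1) ≤
      0.246 * Y * ∑ j ∈ Finset.range n,
    (2 * (1 / Real.sqrt (((j + 1 : ℕ) : ℝ) + 1 / 10) - 1 / Real.sqrt (((j + 1 : ℕ) : ℝ) + 11 / 10))) := by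
    rw [Finset.mul_sum]
    apply Finset.sum_le_sum
    intro j hj
    exact term_le (by omega) (by have := Finset.mem_range.1 hj; omega) hY hY4
  rw [tele] at h1
  have h2 : 2 * (1 / Real.sqrt (1 + 1 / 10) - 1 / Real.sqrt ((n : ℝ) + 1 + 1 / 10)) ≤ 2 := by
    have h3 : (1 : ℝ) ≤ Real.sqrt (1 + 1 / 10) := by
      rw [Real.one_le_sqrt]
      norm_num
    have h4 : 1 / Real.sqrt (1 + 1 / 10) ≤ 1 := by
      rw [div_le_one (by positivity)]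
      exact h3
    have h5 : 0 ≤ 1 / Real.sqrt ((n : ℝ) + 1 + 1 / 10) := by positivity
    linarith
  have h6 : 0.246 * Y * (2 * (1 / Real.sqrt (1 + 1 / 10) - 1 / Real.sqrt ((n : ℝ) + 1 + 1 / 10))) ≤
      0.246 * Y * 2 := mul_le_mul_of_nonneg_left h2 (by positivity)
  linarith

end Pool.Agent.Q190.BB.K3
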